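import Mathlib
import Pool.Agent.TH603.Univ.Main

/-!
# A universal countable periodic locally nilpotent group

For a prime `p` let `Wr p` be the restricted wreath power of the cyclic group of order `p` over
the chain of the rational numbers (`Pool.Agent.TH603.Univ.Wr`): the group of all permutations of
the set of functions `ℚ → ZMod p` which, for some finite set `I` of rationals, change only the
coordinates in `I`, and add to the coordinate `k ∈ I` an amount which depends only on the
coordinates `j ∈ I` with `j < k`. It is a countable locally finite `p`-group, and every countable
locally finite `p`-group embeds in it. The restricted direct product of these groups over all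
primes is a universal countable periodic locally nilpotent group.

Proof idea: a countable locally finite `p`-group is the union of a chain of finite subgroups
`G_n`, each of index `p` in the next one. An ultrafilter limit of chief series of finite subgroups
gives a chief series of the whole group, whose restriction to `G_n` is a chief series. With the
chain one chooses normal forms `c_n ^ a_n ⋯ c_1 ^ a_1` of the elements, and the chief series orders
the coordinates `a_i`; right multiplication by an element of `G_n` then acts in a triangular way
on the coordinates belonging to `G_n`, and does not change the other ones.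
-/

set_option autoImplicit false

namespace Pool.Agent.Results.MP_199925_al.UniversalLocallyNilpotent

universe u

/-- Every element has finite order. -/
def Periodic (G : Type u) [Group G] : Prop := ∀ g : G, IsOfFinOrder g

/-- Every finitely generated subgroup is nilpotent. -/
def LocallyNilpotent (G : Type u) [Group G] : Prop :=
  ∀ H : Subgroup G, H.FG → Group.IsNilpotent H

/-- Every finitely generated subgroup is finite. -/
def LocallyFinite (G : Type u) [Group G] : Prop := ∀ H : Subgroup G, H.FG → Finite H

/-- `U` is a countable periodic locally nilpotent group in which every countable periodic locally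
nilpotent group embeds. -/
def IsUniversalPeriodicLocallyNilpotent (U : Type) [Group U] : Prop :=
  Countable U ∧ Periodic U ∧ LocallyNilpotent U ∧
    ∀ (G : Type u) [Group G], Countable G → Periodic G → LocallyNilpotent G →
      ∃ φ : G →* U, Function.Injective φ

/-- `U` is a countable locally finite `p`-group in which every countable locally finite `p`-group
embeds. -/
def IsUniversalLocallyFinitePGroup (p : ℕ) (U : Type) [Group U] : Prop :=
  Countable U ∧ IsPGroup p U ∧ LocallyFinite U ∧
    ∀ (G : Type u) [Group G], Countable G → IsPGroup p G → LocallyFinite G →
      ∃ φ : G →* U, Function.Injective φ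

/-- (1) There is a universal countable periodic locally nilpotent group. (2) For every prime `p`
there is a universal countable locally finite `p`-group. -/
theorem result :
    (∃ (U : Type) (_ : Group U), IsUniversalPeriodicLocallyNilpotent.{u} U) ∧
    ∀ p : ℕ, p.Prime → ∃ (U : Type) (_ : Group U), IsUniversalLocallyFinitePGroup.{u} p U := by
  classical
  refine ⟨⟨Pool.Agent.TH603.Univ.UN, inferInstance, Pool.Agent.TH603.Univ.countable_UN,
    Pool.Agent.TH603.Univ.torsion_UN, Pool.Agent.TH603.Univ.lnilp_UN, ?_⟩, ?_⟩
  · intro G _ hc htor hnil
    exact Pool.Agent.TH603.Univ.embed_UN G htor hnil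
  · intro p hp
    have hpf : Fact p.Prime := ⟨hp⟩
    have hp0 : NeZero p := ⟨hp.ne_zero⟩
    refine ⟨Pool.Agent.TH603.Univ.Wr p, inferInstance, Pool.Agent.TH603.Univ.countable_Wr p,
      ?_, ?_, ?_⟩
    · intro π
      obtain ⟨I, hI⟩ := π.2
      obtain ⟨n, hn⟩ := Pool.Agent.TH603.Univ.pow_eq_one p (I := I) hI
      exact ⟨n, Subtype.ext (by rw [Subgroup.coe_pow]; exact hn)⟩
    · rintro H ⟨s, rfl⟩
      exact (Pool.Agent.TH603.Univ.lfp_Wr p s).1
    · intro G _ hc hpG hlf
      apply Pool.Agent.TH603.Univ.embed_p p G
      intro s
      exact ⟨hlf _ ⟨s, rfl⟩, hpG.to_subgroup _⟩

end Pool.Agent.Results.MP_199925_al.UniversalLocallyNilpotent
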